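import Pool.Agent.K4H70.HB.KFin
import Pool.Agent.H297.FT.Knotoid

/-!
# Proper knotoids whose normalised brackets tend to one in the Habiro topology

`Letter 4` is the set of the letters `σ_i^{±1}` of braid words on four strands. The braid word `w` is
drawn in the box of `knotoidClosure` (see `Pool.Agent.K4H70.HB.KFin`), the other ends of the strands
being joined as follows: the upper ends of the first two strands with their lower ends, the upper end of
the third strand with the lower end of the fourth strand; the lower end of the third strand is the tail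
and the upper end of the fourth strand the head. This is a knotoid diagram in the sphere, the closure of
`w σ_3` with the lower strand of the last crossing removed; tail and head are separated by one strand.
`fPoly` is the normalised bracket, `A = T 1`.
-/

set_option autoImplicit false

namespace Pool.Agent.Results.MP_79b4ff_gt.ProperHabiroLimit

open LaurentPolynomial Pool.Agent.H891R2.Jones Pool.Agent.W639.RB Pool.Agent.Y463.SK
open Pool.Agent.K4H70.HB Pool.Agent.H832R3.TW Pool.Agent.H297.FT

theorem lift_word (w : List (Bool × ℕ)) (hw : VW w) : ∃ w' : List (Letter 4), toN w' = w := by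
  induction w with
  | nil => exact ⟨[], rfl⟩
  | cons x w ih =>
    obtain ⟨w', hw'⟩ := ih (fun y hy => hw y (List.mem_cons_of_mem _ hy))
    have hx := hw x List.mem_cons_self
    refine ⟨(x.1, ⟨x.2, by omega⟩) :: w', ?_⟩
    rw [← hw']
    rfl

/-- the word `σ_1 σ_2` -/
def vK : List (Letter 4) := [(true, 0), (true, 1)]

theorem pure_of {w : List (Letter 4)} (h : permL (toN w) = 1) : IsPure w := by
  unfold IsPure
  ext i
  have := (permL_toN w).1 i
  rw [h] at this
  exact this.symm

theorem kgood_draw {m : ℕ} (v : Fin m → Bool) (w : List (Bool × ℕ)) : ∀ (O : Outer m), 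
    KGood O v → KGood (draw O w) v := by
  induction w with
  | nil => intro O h; exact h
  | cons x w ih =>
    intro O h
    exact ih _ (KGood_push O v x.1 x.2 h)

theorem closure_knotoid (w : List (Letter 4)) : IsKnotoid (dia knotoidClosure w) := by
  show IsKnotoid (draw knotoidClosure (toN w)).close
  rw [knotoid_iff]
  have h1 : (draw knotoidClosure (toN w)).up = knotoidClosure.up := by
    funext j
    rw [(draw_up (toN w) knotoidClosure (toN_lt w) (fun _ => rfl)).1 j]
    rfl
  rw [h1]
  refine kgood_draw _ _ _ ?_
  have h2 : IsKnotoid knotoidClosure.close := by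
    have h3 : ∀ p : Fin 5, List.count p (knotoidClosure.close.starts : List (Fin 5)) = 
        (if p = 4 then 0 else 1) ∧ List.count p (knotoidClosure.close.ends : List (Fin 5)) = 
        (if p = 2 then 0 else 1) := by decide
    exact ⟨(2 : Fin 5), (4 : Fin 5), (by decide : (2 : Fin 5) ≠ 4), h3⟩
  exact (knotoid_iff _).1 h2

theorem sameCycle_of {u : List (Letter 4)} (h : IsPure u) : 
    ∀ i j, (permW (u ++ vK) * Equiv.swap 2 3).SameCycle i j := by
  have h1 : permW (u ++ vK) = permW vK := by
    have : permW (u ++ vK) = permW u * permW vK := by simp [permW]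
    rw [this, h, one_mul]
  rw [h1]
  decide

theorem dd1 : eps dd = -2 := by
  rw [dd_eq, map_sub, map_neg, eps_T, eps_T]; norm_num

/-- There are braid words `w_0, w_1, …` on four strands whose knotoid closures `K_j` have one component,
are proper (`f` is not a Laurent polynomial in `A^4`) and have pairwise different normalised brackets,
none equal to one, which tend to one in the Habiro topology: `(1 - A^{-4M})^n` divides `f(K_j) - 1` for
`j ≥ M ≥ 1`, `j ≥ n`. -/
theorem result : ∃ w : ℕ → List (Letter 4), 
    (∀ j, IsKnotoid (dia knotoidClosure (w j)) ∧ 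
      ∀ a b, (permW (w j) * Equiv.swap 2 3).SameCycle a b) ∧
    (∀ j, (dia knotoidClosure (w j)).fPoly ∉ Subring.closure {(T 4 : ℤ[T;T⁻¹]), T (-4)}) ∧
    Function.Injective (fun j => (dia knotoidClosure (w j)).fPoly) ∧
    ∀ M n j : ℕ, 0 < M → M ≤ j → n ≤ j → 
      (1 - T (-4 * (M : ℤ)))^n ∣ (dia knotoidClosure (w j)).fPoly - 1 := by
  have hw : ∀ j, ∃ u : List (Letter 4), toN u = HW (3 * j.factorial) (2 * j.factorial) j := 
    fun j => lift_word _ (HW_valid j)
  choose U hU using hw
  have hp : ∀ j, IsPure (U j) := fun j => pure_of (by rw [hU]; exact HW_perm _ _ j)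
  have hF := fun j => exists_K (3 * j.factorial) (2 * j.factorial) j
  choose F hF using hF
  have hf : ∀ j, (dia knotoidClosure (U j ++ vK)).fPoly = 
      1 + (xx (3 * j.factorial) * yy (2 * j.factorial))^(j+1) * 
        (T (-6) * (kk^j * F2 + (1 - T (-4)) * F j)) := by
    intro j
    rw [← hF, ← hU]
    have : toN (U j) ++ v2 = toN (U j ++ vK) := by rw [toN_append]; rfl
    rw [this]
    rfl
  refine ⟨fun j => U j ++ vK, fun j => ⟨closure_knotoid _, sameCycle_of (hp j)⟩, ?_, ?_, ?_⟩
  · intro j
    have h0 := Nat.factorial_pos j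
    show (dia knotoidClosure (U j ++ vK)).fPoly ∉ _
    rw [hf]
    exact not_four (by omega) (by omega) _
  · refine inj_of' (fun j => (gx (3 * j.factorial) * gy (2 * j.factorial))^(j+1) * 
      (T (-6) * (kk^j * F2 + (1 - T (-4)) * F j))) ?_ _ ?_
    · intro j
      have h0 := Nat.factorial_pos j
      have h1 : eps (kk^j * F2 + (1 - T (-4)) * F j) ≠ 0 := by
        unfold kk F2
        simp only [map_add, map_mul, map_pow, map_sub, map_one, eps_T, dd1, sub_self, zero_mul, add_zero,
          map_ofNat]
        refine mul_ne_zero (pow_ne_zero _ (by norm_num)) (by norm_num)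
      rw [map_mul, map_mul, map_pow, map_mul, eps_gx, eps_gy, eps_T, one_mul]
      refine mul_ne_zero (pow_ne_zero _ (mul_ne_zero ?_ ?_)) h1
      · exact_mod_cast (by omega : 3 * j.factorial ≠ 0)
      · exact_mod_cast (by omega : 2 * j.factorial ≠ 0)
    · intro j
      have e : (1 - T (-4)) * gx (3 * j.factorial) * ((1 - T (-4)) * gy (2 * j.factorial)) = 
        (1 - T (-4))^2 * (gx (3 * j.factorial) * gy (2 * j.factorial)) := by ring
      rw [hf, xx_eq, yy_eq, e, mul_pow]
      exact congrArg (fun y => 1 + y) (mul_assoc _ _ _)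
  · intro M n j hM hj hn
    show _ ∣ (dia knotoidClosure (U j ++ vK)).fPoly - 1
    rw [hf, add_sub_cancel_left]
    exact ((pow_dvd_pow_of_dvd (dvd_fac hM hj) n).trans (pow_dvd_pow _ (by omega))).mul_right _

end Pool.Agent.Results.MP_79b4ff_gt.ProperHabiroLimit
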